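import Pool.Agent.Helper3.AA.Spec

/-!
# AA, part MOV: moving a point until it is orthogonal to many of the others
-/

set_option autoImplicit false

open Real Set

namespace Pool.Agent.Helper53.AA.MOV

open Pool.Agent.Helper3.AA

lemma conc_list {E : Type} (F : E → ℝ → ℝ) (a b : ℝ) (l : List E)
    (h : ∀ y ∈ l, ConcaveOn ℝ (Icc a b) (F y)) :
    ConcaveOn ℝ (Icc a b) (fun t => (l.map (fun y => F y t)).sum) := by
  induction l with
  | nil =>
    simp only [List.map_nil, List.sum_nil]
    exact concaveOn_const 0 (convex_Icc a b)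
  | cons y l ih =>
    simp only [List.map_cons, List.sum_cons]
    exact (h y (by simp)).add (ih (fun z hz => h z (by simp [hz])))

variable {E : Type} [NormedAddCommGroup E] [InnerProductSpace ℝ E]

lemma bessel {x w y : E} (hx : ‖x‖ = 1) (hw : ‖w‖ = 1) (hy : ‖y‖ = 1) (hxw : inner ℝ x w = 0) :
    (inner ℝ x y) ^ 2 + (inner ℝ w y) ^ 2 ≤ 1 := by
  set p : ℝ := inner ℝ x y with hp
  set q : ℝ := inner ℝ w y with hq
  have h0 : (0 : ℝ) ≤ inner ℝ (y - p • x - q • w) (y - p • x - q • w) := real_inner_self_nonneg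
  have hxx : (inner ℝ x x : ℝ) = 1 := by rw [real_inner_self_eq_norm_sq, hx]; norm_num
  have hww : (inner ℝ w w : ℝ) = 1 := by rw [real_inner_self_eq_norm_sq, hw]; norm_num
  have hyy : (inner ℝ y y : ℝ) = 1 := by rw [real_inner_self_eq_norm_sq, hy]; norm_num
  have hwx : (inner ℝ w x : ℝ) = 0 := by rw [real_inner_comm]; exact hxw
  have hyx : (inner ℝ y x : ℝ) = p := by rw [real_inner_comm]
  have hyw : (inner ℝ y w : ℝ) = q := by rw [real_inner_comm]
  simp only [inner_sub_left, inner_sub_right, real_inner_smul_left, real_inner_smul_right, hxx, hww,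
    hyy, hwx, hyx, hyw, hxw, ← hp, ← hq] at h0
  nlinarith [h0]

/-- the point on the great circle -/
noncomputable def gc (x w : E) (t : ℝ) : E := cos t • x + sin t • w

lemma norm_gc {x w : E} (hx : ‖x‖ = 1) (hw : ‖w‖ = 1) (hxw : inner ℝ x w = 0) (t : ℝ) :
    ‖gc x w t‖ = 1 := by
  have hxx : (inner ℝ x x : ℝ) = 1 := by rw [real_inner_self_eq_norm_sq, hx]; norm_num
  have hww : (inner ℝ w w : ℝ) = 1 := by rw [real_inner_self_eq_norm_sq, hw]; norm_num
  have hwx : (inner ℝ w x : ℝ) = 0 := by rw [real_inner_comm]; exact hxw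
  have h1 : ‖gc x w t‖ ^ 2 = 1 := by
    rw [← real_inner_self_eq_norm_sq]
    unfold gc
    simp only [inner_add_left, inner_add_right, real_inner_smul_left, real_inner_smul_right, hxx,
      hww, hwx, hxw]
    nlinarith [sin_sq_add_cos_sq t]
  have h2 := norm_nonneg (gc x w t)
  nlinarith

lemma inner_gc (x w y : E) (t : ℝ) :
    (inner ℝ (gc x w t) y : ℝ) = cos t * inner ℝ x y + sin t * inner ℝ w y := by
  unfold gc
  rw [inner_add_left, real_inner_smul_left, real_inner_smul_left]

/-- the zero of the inner product -/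
noncomputable def th (x w y : E) : ℝ := arctan (inner ℝ w y / inner ℝ x y)

lemma gc_cos {x w y : E} (h : (inner ℝ x y : ℝ) ≠ 0) (t : ℝ) :
    (inner ℝ (gc x w t) y : ℝ) * cos (th x w y) = inner ℝ x y * cos (t - th x w y) := by
  have hc : 0 < cos (th x w y) := cos_arctan_pos _
  have h1 : tan (th x w y) = inner ℝ w y / inner ℝ x y := tan_arctan _
  have h2 : tan (th x w y) * cos (th x w y) = sin (th x w y) := tan_mul_cos hc.ne'
  have h3 : (inner ℝ w y : ℝ) * cos (th x w y) = inner ℝ x y * sin (th x w y) := by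
    rw [← h2, h1]
    field_simp
  rw [inner_gc, cos_sub, add_mul, mul_assoc (sin t), h3]
  ring

theorem step (hCON : S_CON) (V : Submodule ℝ E) [FiniteDimensional ℝ V] (l : List E) (x : E)
    (hl : ∀ y ∈ l, y ∈ V ∧ ‖y‖ = 1) (hx : x ∈ V) (hx1 : ‖x‖ = 1)
    (hlen : Module.finrank ℝ V ≤ l.length + 1) [DecidableEq E]
    [DecidablePred fun y : E => (inner ℝ x y : ℝ) = 0]
    (hns : (l.filter (fun y => (inner ℝ x y : ℝ) = 0)).length + 1 < Module.finrank ℝ V) :
    ∃ x' : E, x' ∈ V ∧ ‖x'‖ = 1 ∧ (∀ y ∈ l, (inner ℝ x y : ℝ) = 0 → (inner ℝ x' y : ℝ) = 0) ∧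
      (∃ y ∈ l, (inner ℝ x y : ℝ) ≠ 0 ∧ (inner ℝ x' y : ℝ) = 0) ∧
      (l.map (aw x')).sum ≤ (l.map (aw x)).sum := by
  set J := l.filter (fun y => (inner ℝ x y : ℝ) = 0) with hJ
  -- the new direction
  obtain ⟨w, hwV, hw1, hxw, hwJ⟩ : ∃ w : E, w ∈ V ∧ ‖w‖ = 1 ∧ (inner ℝ x w : ℝ) = 0 ∧
      ∀ y ∈ J, (inner ℝ w y : ℝ) = 0 := by
    set F : Finset E := insert x J.toFinset with hF
    set U : Submodule ℝ E := Submodule.span ℝ (F : Set E) with hU
    have hUV : U ≤ V := by
      rw [hU, Submodule.span_le]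
      intro y hy
      rw [hF, Finset.coe_insert] at hy
      rcases hy with rfl | hy
      · exact hx
      · have h1 : y ∈ J := by simpa using hy
        exact (hl y (List.mem_of_mem_filter h1)).1
    have hUfin : Module.finrank ℝ U < Module.finrank ℝ V := by
      have h1 : Module.finrank ℝ U ≤ F.card := finrank_span_finset_le_card F
      have h2 : F.card ≤ J.toFinset.card + 1 := Finset.card_insert_le _ _
      have h3 : J.toFinset.card ≤ J.length := J.toFinset_card_le
      omega
    have h1 := Submodule.finrank_add_inf_finrank_orthogonal hUV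
    have h2 : 0 < Module.finrank ℝ (Uᗮ ⊓ V : Submodule ℝ E) := by omega
    have h3 : (Uᗮ ⊓ V : Submodule ℝ E) ≠ ⊥ := by
      intro h
      rw [h] at h2
      simp at h2
    obtain ⟨w, hw, hw0⟩ := Submodule.exists_mem_ne_zero_of_ne_bot h3
    have hn : ‖w‖ ≠ 0 := norm_ne_zero_iff.2 hw0
    refine ⟨‖w‖⁻¹ • w, V.smul_mem _ hw.2, ?_, ?_, ?_⟩
    · rw [norm_smul, norm_inv, norm_norm, inv_mul_cancel₀ hn]
    · rw [real_inner_smul_right]
      have h4 : (inner ℝ x w : ℝ) = 0 := (Submodule.mem_orthogonal _ _).1 hw.1 x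
        (Submodule.subset_span (by simp [hF]))
      rw [h4, mul_zero]
    · intro y hy
      rw [real_inner_smul_left]
      have h4 : (inner ℝ y w : ℝ) = 0 := (Submodule.mem_orthogonal _ _).1 hw.1 y
        (Submodule.subset_span (by simp [hF, hy]))
      rw [real_inner_comm, h4, mul_zero]
  -- the vectors which are not orthogonal
  set S : Finset E := l.toFinset.filter (fun y => (inner ℝ x y : ℝ) ≠ 0) with hS
  have hSl : ∀ y, y ∈ S ↔ y ∈ l ∧ (inner ℝ x y : ℝ) ≠ 0 := by
    intro y
    rw [hS, Finset.mem_filter, List.mem_toFinset]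
  have hSne : S.Nonempty := by
    by_contra hcon
    rw [Finset.not_nonempty_iff_eq_empty] at hcon
    have h1 : J = l := by
      rw [hJ, List.filter_eq_self]
      intro y hy
      by_contra h2
      have h3 : y ∈ S := (hSl y).2 ⟨hy, by simpa using h2⟩
      rw [hcon] at h3
      simp at h3
    rw [h1] at hns
    omega
  obtain ⟨y₁, hy₁, hmin⟩ := Finset.exists_min_image S (th x w) hSne
  obtain ⟨y₂, hy₂, hmax⟩ := Finset.exists_max_image S (th x w) hSne
  set b : ℝ := π / 2 + th x w y₁ with hb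
  set a : ℝ := -(π / 2) + th x w y₂ with ha
  have hb0 : 0 < b := by
    have := neg_pi_div_two_lt_arctan (inner ℝ w y₁ / inner ℝ x y₁)
    rw [hb]
    unfold th
    linarith
  have ha0 : a < 0 := by
    have := arctan_lt_pi_div_two (inner ℝ w y₂ / inner ℝ x y₂)
    rw [ha]
    unfold th
    linarith
  have hzero : ∀ y ∈ l, (inner ℝ x y : ℝ) = 0 → ∀ t, (inner ℝ (gc x w t) y : ℝ) = 0 := by
    intro y hy h t
    have h1 : y ∈ J := by
      rw [hJ, List.mem_filter]
      exact ⟨hy, by simpa using h⟩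
    rw [inner_gc, h, hwJ y h1]
    ring
  have hconc : ConcaveOn ℝ (Icc a b) (fun t => (l.map (fun y => aw (gc x w t) y)).sum) := by
    refine conc_list (fun y t => aw (gc x w t) y) a b l ?_
    intro y hy
    by_cases hxy : (inner ℝ x y : ℝ) = 0
    · refine (concaveOn_const (𝕜 := ℝ) (0 : ℝ) (convex_Icc a b)).congr ?_
      intro t _
      change (0 : ℝ) = aw (gc x w t) y
      unfold aw
      rw [hzero y hy hxy t, abs_zero, arcsin_zero]
    · have hyS : y ∈ S := (hSl y).2 ⟨hy, hxy⟩
      obtain ⟨s, hs1, hs2⟩ : ∃ s : ℝ, s ^ 2 = 1 ∧ 0 ≤ s * (inner ℝ x y : ℝ) := by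
        rcases le_total 0 (inner ℝ x y : ℝ) with h | h
        · exact ⟨1, by norm_num, by linarith⟩
        · exact ⟨-1, by norm_num, by linarith⟩
      have hc : 0 < cos (th x w y) := cos_arctan_pos _
      have hnn : ∀ t ∈ Icc a b, 0 ≤ s * (inner ℝ (gc x w t) y : ℝ) := by
        intro t ht
        have h1 := gc_cos (w := w) hxy t
        have h2 : 0 ≤ cos (t - th x w y) := by
          apply cos_nonneg_of_neg_pi_div_two_le_of_le
          · have := hmax y hyS
            have := ht.1
            linarith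
          · have := hmin y hyS
            have := ht.2
            linarith
        have h3 : 0 ≤ (s * (inner ℝ (gc x w t) y : ℝ)) * cos (th x w y) := by
          rw [mul_assoc, h1, ← mul_assoc]
          exact mul_nonneg hs2 h2
        exact nonneg_of_mul_nonneg_left h3 hc
      have heq : ∀ t, s * (inner ℝ x y : ℝ) * cos t + s * (inner ℝ w y : ℝ) * sin t =
          s * (inner ℝ (gc x w t) y : ℝ) := by
        intro t
        rw [inner_gc]
        ring
      have h1 := hCON (s * (inner ℝ x y : ℝ)) (s * (inner ℝ w y : ℝ)) a b (by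
          have h2 := bessel hx1 hw1 (hl y hy).2 hxw
          rw [mul_pow, mul_pow, hs1]
          linarith) (by
          intro t ht
          rw [heq t]
          exact hnn t ht)
      refine h1.congr ?_
      intro t ht
      change arcsin (s * (inner ℝ x y : ℝ) * cos t + s * (inner ℝ w y : ℝ) * sin t) =
        aw (gc x w t) y
      unfold aw
      rw [heq t, ← abs_of_nonneg (hnn t ht), abs_mul]
      have hs3 : |s| = 1 := by
        have h4 : |s| ^ 2 = 1 := by rw [sq_abs]; exact hs1
        have h5 := abs_nonneg s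
        nlinarith
      rw [hs3, one_mul]
  have h0 : gc x w 0 = x := by
    unfold gc
    simp
  have hz1 : (inner ℝ (gc x w b) y₁ : ℝ) = 0 := by
    have h1 := gc_cos (w := w) ((hSl y₁).1 hy₁).2 b
    have h2 : b - th x w y₁ = π / 2 := by rw [hb]; ring
    rw [h2, cos_pi_div_two, mul_zero] at h1
    have hc : 0 < cos (th x w y₁) := cos_arctan_pos _
    rcases mul_eq_zero.1 h1 with h | h
    · exact h
    · exact absurd h hc.ne'
  have hz2 : (inner ℝ (gc x w a) y₂ : ℝ) = 0 := by
    have h1 := gc_cos (w := w) ((hSl y₂).1 hy₂).2 a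
    have h2 : a - th x w y₂ = -(π / 2) := by rw [ha]; ring
    rw [h2, cos_neg, cos_pi_div_two, mul_zero] at h1
    have hc : 0 < cos (th x w y₂) := cos_arctan_pos _
    rcases mul_eq_zero.1 h1 with h | h
    · exact h
    · exact absurd h hc.ne'
  have hmem : ∀ t, gc x w t ∈ V := fun t => V.add_mem (V.smul_mem _ hx) (V.smul_mem _ hwV)
  have h1 := hconc.min_le_of_mem_Icc (left_mem_Icc.2 (ha0.le.trans hb0.le))
    (right_mem_Icc.2 (ha0.le.trans hb0.le)) (z := 0) ⟨ha0.le, hb0.le⟩
  rw [min_le_iff] at h1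
  simp only [h0] at h1
  rcases h1 with h1 | h1
  · exact ⟨gc x w a, hmem a, norm_gc hx1 hw1 hxw a, fun y hy h => hzero y hy h a,
      ⟨y₂, ((hSl y₂).1 hy₂).1, ((hSl y₂).1 hy₂).2, hz2⟩, h1⟩
  · exact ⟨gc x w b, hmem b, norm_gc hx1 hw1 hxw b, fun y hy h => hzero y hy h b,
      ⟨y₁, ((hSl y₁).1 hy₁).1, ((hSl y₁).1 hy₁).2, hz1⟩, h1⟩

theorem main (hCON : S_CON) : S_MOV := by
  classical
  intro E _ _ V _ l x hl hx hx1 hfin
  suffices H : ∀ n : ℕ, ∀ x : E, x ∈ V → ‖x‖ = 1 →
      (l.toFinset.filter (fun y => (inner ℝ x y : ℝ) ≠ 0)).card ≤ n →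
      ∃ (x' : E) (K J : List E), x' ∈ V ∧ ‖x'‖ = 1 ∧
        (K ++ J).Perm l ∧ (∀ y ∈ J, inner ℝ x' y = 0) ∧
        K.length + Module.finrank ℝ V ≤ l.length + 1 ∧
        (l.map (aw x')).sum ≤ (l.map (aw x)).sum from H _ x hx hx1 le_rfl
  have hdone : ∀ x : E, x ∈ V → ‖x‖ = 1 →
      Module.finrank ℝ V ≤ (l.filter (fun y => (inner ℝ x y : ℝ) = 0)).length + 1 →
      ∃ (x' : E) (K J : List E), x' ∈ V ∧ ‖x'‖ = 1 ∧
        (K ++ J).Perm l ∧ (∀ y ∈ J, inner ℝ x' y = 0) ∧
        K.length + Module.finrank ℝ V ≤ l.length + 1 ∧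
        (l.map (aw x')).sum ≤ (l.map (aw x)).sum := by
    intro x hx hx1 h
    have hperm := List.filter_append_perm (fun y : E => decide ((inner ℝ x y : ℝ) = 0)) l
    refine ⟨x, l.filter (fun y => !decide ((inner ℝ x y : ℝ) = 0)),
      l.filter (fun y => decide ((inner ℝ x y : ℝ) = 0)), hx, hx1,
      List.perm_append_comm.trans hperm, ?_, ?_, le_rfl⟩
    · intro y hy
      have h1 := (List.mem_filter.1 hy).2
      simpa using h1
    · have h1 := hperm.length_eq
      rw [List.length_append] at h1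
      omega
  intro n
  induction n with
  | zero =>
    intro x hx hx1 hc
    apply hdone x hx hx1
    have h1 : l.filter (fun y => (inner ℝ x y : ℝ) = 0) = l := by
      rw [List.filter_eq_self]
      intro y hy
      by_contra h2
      have h3 : y ∈ l.toFinset.filter (fun y => (inner ℝ x y : ℝ) ≠ 0) := by
        rw [Finset.mem_filter, List.mem_toFinset]
        exact ⟨hy, by simpa using h2⟩
      have h4 := Finset.card_pos.2 ⟨y, h3⟩
      omega
    rw [h1]
    exact hfin
  | succ n ih =>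
    intro x hx hx1 hc
    by_cases hstop : Module.finrank ℝ V ≤
        (l.filter (fun y => (inner ℝ x y : ℝ) = 0)).length + 1
    · exact hdone x hx hx1 hstop
    · obtain ⟨x', hx'V, hx'1, hkeep, ⟨y, hyl, hy1, hy2⟩, hsum⟩ :=
        step hCON V l x hl hx hx1 hfin (by omega)
      have hlt : (l.toFinset.filter (fun y => (inner ℝ x' y : ℝ) ≠ 0)).card <
          (l.toFinset.filter (fun y => (inner ℝ x y : ℝ) ≠ 0)).card := by
        apply Finset.card_lt_card
        refine ⟨?_, ?_⟩
        · intro z hz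
          rw [Finset.mem_filter, List.mem_toFinset] at hz ⊢
          exact ⟨hz.1, fun h => hz.2 (hkeep z hz.1 h)⟩
        · intro hsub
          have h1 : y ∈ l.toFinset.filter (fun y => (inner ℝ x y : ℝ) ≠ 0) := by
            rw [Finset.mem_filter, List.mem_toFinset]
            exact ⟨hyl, hy1⟩
          have h2 := hsub h1
          rw [Finset.mem_filter] at h2
          exact h2.2 hy2
      obtain ⟨x'', K, J, h1, h2, h3, h4, h5, h6⟩ := ih x' hx'V hx'1 (by omega)
      exact ⟨x'', K, J, h1, h2, h3, h4, h5, h6.trans hsum⟩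

end Pool.Agent.Helper53.AA.MOV
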